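import Pool.Agent.Helper21.DN.Stmts

set_option autoImplicit false

namespace Pool.Agent.Helper21.DN

universe u

open Polynomial

/-- the central extension in coordinates -/
theorem emb1_grp (p : ℕ) [Fact p.Prime] (P : Type) [Group P] [Finite P] (G : Type u) [Group G]
    (r : P →* G) (hr : Function.Surjective r) (z : P) (hz : z ∈ Subgroup.center P)
    (hzp : orderOf z = p) (hk : r.ker = Subgroup.zpowers z) :
    ∃ (c : G → G → ZMod p) (i : P → ZMod p),
      (∀ σ τ ρ, c σ τ + c (σ * τ) ρ = c τ ρ + c σ (τ * ρ)) ∧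
      (∀ g h, i (g * h) = i g + i h + c (r g) (r h)) ∧
      (∀ g, r g = 1 → i g = i 1 → g = 1) := by
  have hp : p.Prime := Fact.out
  set zp : ZMod p → P := fun i => z ^ i.val with hzpdef
  have hadd : ∀ i j, zp (i + j) = zp i * zp j := by
    intro i j
    simp only [hzpdef]
    rw [ZMod.val_add, ← pow_add]
    have h1 := pow_mod_orderOf z (i.val + j.val)
    rw [hzp] at h1
    exact h1
  have hinj : Function.Injective zp := by
    intro i j hij
    simp only [hzpdef] at hij
    have h1 : i.val < orderOf z := by rw [hzp]; exact ZMod.val_lt i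
    have h2 : j.val < orderOf z := by rw [hzp]; exact ZMod.val_lt j
    exact ZMod.val_injective p (pow_injOn_Iio_orderOf h1 h2 hij)
  have hsurj : ∀ w : P, r w = 1 → ∃ i, w = zp i := by
    intro w hw
    have h1 : w ∈ Subgroup.zpowers z := by rw [← hk]; exact hw
    rw [← mem_powers_iff_mem_zpowers] at h1
    obtain ⟨n, hn⟩ := h1
    refine ⟨(n : ZMod p), ?_⟩
    simp only [hzpdef]
    have hn' : z ^ n = w := hn
    have h1 := pow_mod_orderOf z n
    rw [hzp] at h1
    rw [ZMod.val_natCast, ← hn', h1]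
  have hcomm : ∀ (i : ZMod p) (w : P), w * zp i = zp i * w := by
    intro i w
    have h1 : zp i ∈ Subgroup.center P := Subgroup.pow_mem _ hz _
    exact Subgroup.mem_center_iff.1 h1 w
  set u : G → P := Function.surjInv hr with hu
  have hru : ∀ σ, r (u σ) = σ := Function.surjInv_eq hr
  have hc : ∀ σ τ, ∃ i, u σ * u τ * (u (σ * τ))⁻¹ = zp i := by
    intro σ τ
    apply hsurj
    rw [map_mul, map_mul, map_inv, hru, hru, hru, mul_inv_cancel]
  choose c hc using hc
  have hc' : ∀ σ τ, u σ * u τ = zp (c σ τ) * u (σ * τ) := by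
    intro σ τ
    rw [← hc, inv_mul_cancel_right]
  have hi : ∀ g, ∃ i, g * (u (r g))⁻¹ = zp i := by
    intro g
    apply hsurj
    rw [map_mul, map_inv, hru, mul_inv_cancel]
  choose i hi using hi
  have hi' : ∀ g, g = zp (i g) * u (r g) := by
    intro g
    rw [← hi, inv_mul_cancel_right]
  refine ⟨c, i, ?_, ?_, ?_⟩
  · intro σ τ ρ
    have h1 : zp (c σ τ + c (σ * τ) ρ) * u (σ * τ * ρ) =
        zp (c τ ρ + c σ (τ * ρ)) * u (σ * τ * ρ) := by
      calc zp (c σ τ + c (σ * τ) ρ) * u (σ * τ * ρ)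
          = zp (c σ τ) * (zp (c (σ * τ) ρ) * u (σ * τ * ρ)) := by rw [hadd, mul_assoc]
        _ = zp (c σ τ) * (u (σ * τ) * u ρ) := by rw [hc']
        _ = (u σ * u τ) * u ρ := by rw [← mul_assoc, ← hc']
        _ = u σ * (u τ * u ρ) := by rw [mul_assoc]
        _ = u σ * (zp (c τ ρ) * u (τ * ρ)) := by rw [hc']
        _ = zp (c τ ρ) * (u σ * u (τ * ρ)) := by rw [← mul_assoc, hcomm, mul_assoc]
        _ = zp (c τ ρ) * (zp (c σ (τ * ρ)) * u (σ * (τ * ρ))) := by rw [hc']
        _ = zp (c τ ρ + c σ (τ * ρ)) * u (σ * τ * ρ) := by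
            rw [hadd, mul_assoc, mul_assoc σ τ ρ]
    exact hinj (mul_right_cancel h1)
  · intro g h
    have h1 : zp (i (g * h)) * u (r g * r h) =
        zp (i g + i h + c (r g) (r h)) * u (r g * r h) := by
      calc zp (i (g * h)) * u (r g * r h) = g * h := by
            rw [← map_mul, ← hi']
        _ = (zp (i g) * u (r g)) * (zp (i h) * u (r h)) := by rw [← hi', ← hi']
        _ = zp (i g) * zp (i h) * (u (r g) * u (r h)) := by
            rw [mul_assoc, ← mul_assoc (u (r g)), hcomm]
            simp only [mul_assoc]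
        _ = zp (i g + i h + c (r g) (r h)) * u (r g * r h) := by
            rw [hc', hadd, hadd]
            simp only [mul_assoc]
    exact hinj (mul_right_cancel h1)
  · intro g hg hi1
    have h1 : i 1 = i g := hi1.symm
    calc g = zp (i g) * u (r g) := hi' g
      _ = zp (i 1) * u (r 1) := by rw [hi1, hg, map_one]
      _ = 1 := (hi' 1).symm

theorem emb1_card (p : ℕ) [Fact p.Prime] (P : Type) [Group P] [Finite P] (G : Type u) [Group G]
    (r : P →* G) (hr : Function.Surjective r) (z : P)
    (hzp : orderOf z = p) (hk : r.ker = Subgroup.zpowers z) :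
    Nat.card P = Nat.card G * p := by
  rw [Subgroup.card_eq_card_quotient_mul_card_subgroup r.ker]
  congr 1
  · exact Nat.card_congr (QuotientGroup.quotientKerEquivOfSurjective r hr).toEquiv
  · rw [hk, Nat.card_zpowers, hzp]

theorem emb1_eval (p : ℕ) (L M : Type u) [Field L] [CommRing M] (φ : L →+* M) (a : L) (x : M) :
    (X ^ p - X - C a : L[X]).eval₂ φ x = x ^ p - x - φ a := by
  rw [eval₂_sub, eval₂_sub, eval₂_X_pow, eval₂_X, eval₂_C]

theorem st_EMB1 (hEMA : ST_EMA.{u}) (hAS : ST_AS.{u}) : ST_EMB1.{u} := by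
  intro p _ K L _ _ _ _ _ _ P _ _ r hr z hz hzp hk hN
  have hp : p.Prime := Fact.out
  obtain ⟨c, i, hc, hi, hinj⟩ := emb1_grp p P (L ≃ₐ[K] L) r hr z hz hzp hk
  obtain ⟨b, f, hb, hf⟩ := hEMA p K L c hc
  obtain ⟨h, hh⟩ := hN f
  have : CharP L p := charP_of_injective_algebraMap (algebraMap K L).injective p
  set a : L := f + algebraMap K L h with ha
  have hirr : Irreducible (X ^ p - X - C a : L[X]) := hAS p L a hh
  set q : L[X] := X ^ p - X - C a with hq
  have : Fact (Irreducible q) := ⟨hirr⟩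
  have hq0 : q ≠ 0 := hirr.ne_zero
  have hdeg : q.natDegree = p := by
    have h1 : q = X ^ p - (X + C a) := by rw [hq]; ring
    rw [h1, natDegree_sub_eq_left_of_natDegree_lt, natDegree_X_pow]
    rw [natDegree_X_pow, natDegree_X_add_C]
    exact hp.one_lt
  set M : Type u := AdjoinRoot q with hM
  have hcM : CharP M p := charP_of_injective_algebraMap (algebraMap L M).injective p
  have hfLM : FiniteDimensional L M := (AdjoinRoot.powerBasis hq0).finite
  have hfKM : FiniteDimensional K M := FiniteDimensional.trans K L M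
  have hfr : Module.finrank L M = p := by
    rw [(AdjoinRoot.powerBasis hq0).finrank, AdjoinRoot.powerBasis_dim, hdeg]
  have hfr2 : Module.finrank K M = Nat.card P := by
    rw [← Module.finrank_mul_finrank K L M, hfr, emb1_card p P (L ≃ₐ[K] L) r hr z hzp hk,
      IsGalois.card_aut_eq_finrank]
  -- the root
  set y : M := AdjoinRoot.root q with hy
  have hyp : y ^ p - y = algebraMap L M a := by
    have h1 : q.eval₂ (AdjoinRoot.of q) y = 0 := AdjoinRoot.eval₂_root q
    have h2 : q.eval₂ (AdjoinRoot.of q) y = y ^ p - y - (AdjoinRoot.of q) a :=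
      emb1_eval p L M (AdjoinRoot.of q) a y
    rw [h2, sub_eq_zero] at h1
    exact h1
  set cm : ZMod p →+* M := ZMod.castHom (dvd_refl p) M with hcm
  have hcmv : ∀ t : ZMod p, ((t.val : ℕ) : M) = cm t := by
    intro t
    rw [hcm, ZMod.castHom_apply, ZMod.natCast_val]
  have hcmp : ∀ t : ZMod p, cm t ^ p = cm t := by
    intro t
    rw [← map_pow, ZMod.pow_card]
  have hx : ∀ g : P, (y + algebraMap L M (b (r g)) + cm (i g)) ^ p -
      (y + algebraMap L M (b (r g)) + cm (i g)) = algebraMap L M ((r g) a) := by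
    intro g
    rw [add_pow_char, add_pow_char, hcmp]
    have h1 : algebraMap L M (b (r g)) ^ p - algebraMap L M (b (r g)) =
        algebraMap L M ((r g) f - f) := by
      rw [← hf, map_sub, map_pow]
    have h2 : (r g) a = (r g) f - f + a := by
      rw [ha, map_add, AlgEquiv.commutes]
      ring
    rw [h2, map_add, ← h1, ← hyp]
    ring
  have hev : ∀ g : P, q.eval₂ ((IsScalarTower.toAlgHom K L M).comp ((r g : L ≃ₐ[K] L) : L →ₐ[K] L))
      (y + algebraMap L M (b (r g)) + cm (i g)) = 0 := by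
    intro g
    have h1 := hx g
    have h2 := emb1_eval p L M
      ((IsScalarTower.toAlgHom K L M).comp ((r g : L ≃ₐ[K] L) : L →ₐ[K] L)).toRingHom a
      (y + algebraMap L M (b (r g)) + cm (i g))
    refine h2.trans ?_
    rw [sub_eq_zero]
    exact h1
  set Φ : P → (M →ₐ[K] M) := fun g => AdjoinRoot.liftAlgHom q
    ((IsScalarTower.toAlgHom K L M).comp ((r g : L ≃ₐ[K] L) : L →ₐ[K] L))
    (y + algebraMap L M (b (r g)) + cm (i g)) (hev g) with hΦ
  have hΦL : ∀ g (x : L), Φ g (algebraMap L M x) = algebraMap L M ((r g) x) := by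
    intro g x
    exact AdjoinRoot.liftAlgHom_of q _ _ (hev g) x
  have hΦy : ∀ g, Φ g y = y + algebraMap L M (b (r g)) + cm (i g) := by
    intro g
    exact AdjoinRoot.liftAlgHom_root q _ _ (hev g)
  have hΦc : ∀ g (t : ZMod p), Φ g (cm t) = cm t := by
    intro g t
    rw [← hcmv, map_natCast]
  have hext : ∀ φ ψ : M →ₐ[K] M, (∀ x : L, φ (algebraMap L M x) = ψ (algebraMap L M x)) →
      φ y = ψ y → φ = ψ := by
    intro φ ψ h1 h2
    have h3 : (φ : M →+* M) = (ψ : M →+* M) := by
      apply AdjoinRoot.ringHom_ext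
      · ext x
        exact h1 x
      · exact h2
    exact AlgHom.ext fun x => RingHom.congr_fun h3 x
  have hmul : ∀ g g' : P, Φ (g * g') = (Φ g).comp (Φ g') := by
    intro g g'
    apply hext
    · intro x
      rw [AlgHom.comp_apply, hΦL, hΦL, hΦL, map_mul]
      rfl
    · rw [AlgHom.comp_apply, hΦy, hΦy, map_add, map_add, hΦy, hΦL, hΦc, hi, map_add, map_add,
        map_mul r]
      have h1 : algebraMap L M (b (r g)) + algebraMap L M ((r g) (b (r g'))) =
          algebraMap L M (b (r g * r g')) + cm (c (r g) (r g')) := by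
        rw [← map_add, hb, map_add, map_natCast, hcmv]
      linear_combination (-1 : M) * h1
  have hone : Φ 1 = AlgHom.id K M := by
    -- `Φ 1` is idempotent and injective
    have h1 : (Φ 1).comp (Φ 1) = Φ 1 := by rw [← hmul, one_mul]
    refine AlgHom.ext fun x => ?_
    have h2 : Φ 1 (Φ 1 x) = Φ 1 x := AlgHom.congr_fun h1 x
    exact (Φ 1).toRingHom.injective h2
  set Φm : P →* (M →ₐ[K] M) :=
    { toFun := Φ
      map_one' := hone
      map_mul' := hmul } with hΦm
  set Ψ : P →* (M ≃ₐ[K] M) :=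
    (AlgEquiv.algHomUnitsEquiv K M).toMonoidHom.comp Φm.toHomUnits with hΨ
  have hΨΦ : ∀ g x, Ψ g x = Φ g x := fun g x => rfl
  have hΨinj : Function.Injective Ψ := by
    rw [injective_iff_map_eq_one]
    intro g hg
    have h1 : ∀ x, Φ g x = x := by
      intro x
      rw [← hΨΦ, hg]
      rfl
    have hrg : r g = 1 := by
      ext x
      have h2 := h1 (algebraMap L M x)
      rw [hΦL] at h2
      exact (algebraMap L M).injective h2
    apply hinj g hrg
    have h3 := h1 y
    rw [hΦy, hrg] at h3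
    have h4 : Φ 1 y = y := by rw [hone]; rfl
    rw [hΦy, map_one r] at h4
    have h5 : cm (i g) = cm (i 1) := by
      have h6 := h3.trans h4.symm
      exact add_left_cancel h6
    exact cm.injective h5
  have hfinAut : Finite (M ≃ₐ[K] M) := inferInstance
  have hle : Nat.card (M ≃ₐ[K] M) ≤ Module.finrank K M := by
    rw [Nat.card_eq_fintype_card]
    exact AlgEquiv.card_le
  have hge : Nat.card P ≤ Nat.card (M ≃ₐ[K] M) := Nat.card_le_card_of_injective Ψ hΨinj
  have heq : Nat.card (M ≃ₐ[K] M) = Module.finrank K M :=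
    le_antisymm hle (by rw [hfr2]; exact hge)
  have hgal : IsGalois K M := IsGalois.of_card_aut_eq_finrank K M heq
  have hbij : Function.Bijective Ψ :=
    (Nat.bijective_iff_injective_and_card Ψ).2 ⟨hΨinj, by rw [heq, hfr2]⟩
  refine ⟨M, inferInstance, inferInstance, inferInstance, inferInstance, hfKM, hgal,
    (MulEquiv.ofBijective Ψ hbij).symm, ?_⟩
  intro σ x
  obtain ⟨g, rfl⟩ := hbij.2 σ
  have h1 : (MulEquiv.ofBijective Ψ hbij).symm (Ψ g) = g :=
    (MulEquiv.ofBijective Ψ hbij).symm_apply_apply g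
  rw [h1]
  exact hΦL g x

end Pool.Agent.Helper21.DN
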